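import Pool.Agent.MP_187b32_an.Herm.Macro
import Pool.Agent.MP_187b32_an.Calc.XSob
import Pool.Agent.MP_187b32_an.Lin.Loc

/-! Pointwise algebra of the energy density used for the finite rank damping. -/

set_option autoImplicit false

open MeasureTheory Pool.Agent.Boltz Finset Filter Topology

noncomputable section

namespace Pool.Agent.MP_187b32_an.KK

/-- The energy density as a bilinear form of the jets. -/
def jetB (n : ℕ) (θ σ : ℝ) : (List (Fin 3) → SV) →ₗ[ℝ] (List (Fin 3) → SV) →ₗ[ℝ] ℝ :=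
  LinearMap.mk₂ ℝ (fun a b => lev n θ σ fun u m => nB m (a u) (b u))
    (fun a a' b => by simp [lev, mul_add, sum_add_distrib])
    (fun c a b => by simp [lev, mul_sum, mul_left_comm])
    (fun a b b' => by simp [lev, mul_add, sum_add_distrib])
    (fun c a b => by simp [lev, mul_sum, mul_left_comm])

lemma jetB_apply (n : ℕ) (θ σ : ℝ) (a b : List (Fin 3) → SV) :
    jetB n θ σ a b = lev n θ σ fun u m => nB m (a u) (b u) := rfl

lemma bb_eq (n : ℕ) (θ : ℝ) (σ : E3 → ℝ) (G H : E3 → SV) (x : E3) :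
    bb n θ σ G H x = jetB n θ (σ x) (fun u => dXw u G x) fun u => dXw u H x := rfl

lemma lev_mono {n : ℕ} {θ σ : ℝ} (hθ : 0 ≤ θ) {φ ψ : List (Fin 3) → ℕ → ℝ}
    (h : ∀ u m, φ u m ≤ ψ u m) : lev n θ σ φ ≤ lev n θ σ ψ := by
  refine sum_le_sum fun j _ => sum_le_sum fun m _ => ?_
  refine mul_le_mul_of_nonneg_left (sum_le_sum fun u _ => h u m) ?_
  rw [pow_mul']
  positivity

lemma lev_nonneg {n : ℕ} {θ σ : ℝ} (hθ : 0 ≤ θ) {φ : List (Fin 3) → ℕ → ℝ}
    (h : ∀ u m, 0 ≤ φ u m) : 0 ≤ lev n θ σ φ := by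
  have := lev_mono (n := n) (σ := σ) hθ (φ := fun _ _ => 0) h
  simpa [lev] using this

lemma term_le_lev {n : ℕ} {θ σ : ℝ} (hθ : 0 ≤ θ) {φ : List (Fin 3) → ℕ → ℝ}
    (h : ∀ u m, 0 ≤ φ u m) (u : List (Fin 3)) (m : ℕ) (hum : u.length + m ≤ n) :
    θ ^ (u.length + m) * σ ^ (2 * u.length) * φ u m ≤ lev n θ σ φ := by
  have hw : ∀ j m : ℕ, 0 ≤ θ ^ (j + m) * σ ^ (2 * j) := fun j m => by
    rw [pow_mul']; positivity
  have h1 : φ u m ≤ ∑ w ∈ words u.length, φ w m :=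
    single_le_sum (f := fun w => φ w m) (fun w _ => h w m) (mem_words.2 rfl)
  refine (mul_le_mul_of_nonneg_left h1 (hw _ _)).trans ?_
  have h2 := single_le_sum (s := range (n + 1 - u.length))
    (f := fun m => θ ^ (u.length + m) * σ ^ (2 * u.length) * ∑ w ∈ words u.length, φ w m)
    (fun m _ => mul_nonneg (hw _ _) (sum_nonneg fun w _ => h w m)) (a := m)
    (mem_range.2 (by omega))
  refine h2.trans ?_
  exact single_le_sum (s := range (n + 1)) (f := fun j => ∑ m ∈ range (n + 1 - j),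
      θ ^ (j + m) * σ ^ (2 * j) * ∑ w ∈ words j, φ w m)
    (fun j _ => sum_nonneg fun m _ => mul_nonneg (hw _ _) (sum_nonneg fun w _ => h w m))
    (mem_range.2 (by omega))

lemma jetB_comm (n : ℕ) (θ σ : ℝ) (a b : List (Fin 3) → SV) : jetB n θ σ a b = jetB n θ σ b a := by
  simp only [jetB_apply, nB_comm _ (a _)]

lemma jetB_nonneg (n : ℕ) {θ : ℝ} (hθ : 0 ≤ θ) (σ : ℝ) (a : List (Fin 3) → SV) :
    0 ≤ jetB n θ σ a a :=
  lev_nonneg hθ fun u m => by rw [nB_self]; exact nA_nonneg _ _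

variable {n : ℕ} {θ : ℝ} {σ : E3 → ℝ} {G H : E3 → SV}

lemma bb_comm (x : E3) : bb n θ σ G H x = bb n θ σ H G x := jetB_comm _ _ _ _ _

lemma bb_nonneg (hθ : 0 ≤ θ) (x : E3) : 0 ≤ bb n θ σ G G x := jetB_nonneg _ hθ _ _

lemma bb_sq_le (hθ : 0 ≤ θ) (x : E3) : bb n θ σ G H x ^ 2 ≤ bb n θ σ G G x * bb n θ σ H H x :=
  LinearMap.BilinForm.apply_sq_le_of_symm (jetB n θ (σ x)) (jetB_nonneg n hθ _)
    ⟨fun a b => jetB_comm _ _ _ a b⟩ _ _

lemma bb_add_left {G' : E3 → SV} (hG : Sm G) (hG' : Sm G') (x : E3) :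
    bb n θ σ (fun y => G y + G' y) H x = bb n θ σ G H x + bb n θ σ G' H x := by
  simp only [bb_eq, dXw_add hG hG']
  rw [← LinearMap.add_apply, ← map_add]
  rfl

lemma bb_smul_left (hG : Sm G) (c : ℝ) (x : E3) :
    bb n θ σ (fun y => c • G y) H x = c * bb n θ σ G H x := by
  simp only [bb_eq, dXw_const_smul hG]
  rw [← smul_eq_mul, ← LinearMap.smul_apply, ← map_smul]
  rfl

lemma continuous_bb (hσ : Continuous σ) (hG : Sm G) (hH : Sm H) : Continuous (bb n θ σ G H) := by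
  unfold bb lev
  refine continuous_finsetSum _ fun j _ => continuous_finsetSum _ fun m _ => ?_
  refine (continuous_const.mul (hσ.pow _)).mul (continuous_finsetSum _ fun u _ => ?_)
  exact ((hG.dXw u).ip ((hH.dXw u).clm (RR m))).cont

lemma per_bb (hσ : Per σ) (hG : Per G) (hH : Per H) : Per (bb n θ σ G H) := fun i x => by
  simp only [bb, hσ i x, hG.dXw _ i x, hH.dXw _ i x]

lemma bb_congr {σ' : E3 → ℝ} {G' H' : E3 → SV} {x : E3} (hσ : σ x = σ' x) (hG : G =ᶠ[𝓝 x] G')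
    (hH : H =ᶠ[𝓝 x] H') : bb n θ σ G H x = bb n θ σ' G' H' x := by
  simp only [bb, hσ, dXw_congr_ev hG, dXw_congr_ev hH]

lemma supp_bb {ρ : ℝ} (hG : Supp ρ G) : Supp ρ (bb n θ σ G H) := fun x hx => by
  simp [bb, lev, hG.dXw _ x hx]

lemma term_le_bb (hθ : 0 ≤ θ) (u : List (Fin 3)) (m : ℕ) (hum : u.length + m ≤ n) (x : E3) :
    θ ^ (u.length + m) * σ x ^ (2 * u.length) * nA m (dXw u G x) ≤ bb n θ σ G G x := by
  rw [← nB_self]
  exact term_le_lev (φ := fun u m => nB m (dXw u G x) (dXw u G x)) hθ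
    (fun u m => by rw [nB_self]; exact nA_nonneg _ _) u m hum

lemma ip_le_bb (hθ : 0 ≤ θ) (x : E3) : ip (G x) (G x) ≤ bb n θ σ G G x := by
  simpa [nA_zero] using term_le_bb (n := n) (σ := σ) (G := G) hθ [] 0 (by simp) x

lemma bb_PP_right (hG : Sm G) (hH : Sm H) (hP : ∀ y, PP (G y) = G y) (x : E3) :
    bb n θ σ G (fun y => PP (H y)) x = bb n θ σ G H x := by
  have e : ∀ u, PP (dXw u G x) = dXw u G x := fun u => by
    have := congrFun (dXw_clm hG PP u) x
    simp only [hP] at this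
    exact this.symm
  simp only [bb, dXw_clm hH PP]
  congr 1
  funext u m
  rw [← PP_RR, ← ip_PP, e]

lemma bb_PP_le (hθ : 0 ≤ θ) (hG : Sm G) (x : E3) :
    bb n θ σ (fun y => PP (G y)) (fun y => PP (G y)) x ≤ bb n θ σ G G x := by
  simp only [bb, dXw_clm hG PP]
  exact lev_mono hθ fun u m => by
    rw [← nA_eq_ip_RR, ← nA_eq_ip_RR]; exact nA_PP_le_nA _ _

lemma bb_scale (hG : Sm G) (hH : Sm H) {lam : ℝ} {σ' : E3 → ℝ} (x : E3)
    (hσ : lam * σ' x = σ (lam • x)) :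
    bb n θ σ' (fun y => G (lam • y)) (fun y => H (lam • y)) x = bb n θ σ G H (lam • x) := by
  simp only [bb, lev, dXw_scale hG, dXw_scale hH, ← hσ, map_smul, LinearMap.smul_apply,
    smul_eq_mul]
  refine sum_congr rfl fun j _ => sum_congr rfl fun m _ => ?_
  rw [mul_sum, mul_sum]
  refine sum_congr rfl fun u hu => ?_
  rw [mem_words.1 hu]
  ring

lemma nA_list_sum_le (m : ℕ) {c : ℝ} (hc : 0 ≤ c) (l : List SV) (h : ∀ f ∈ l, nA m f ≤ c) :
    nA m l.sum ≤ (l.length : ℝ) ^ 2 * c := by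
  induction l with
  | nil => simp
  | cons f l ih =>
    have h1 := h f (by simp)
    have h2 := ih fun g hg => h g (by simp [hg])
    have h3 : nB m f l.sum ^ 2 ≤ nB m f f * nB m l.sum l.sum :=
      LinearMap.BilinForm.apply_sq_le_of_symm (nB m)
        (fun a => by rw [nB_self]; exact nA_nonneg _ _) ⟨fun a b => nB_comm _ a b⟩ _ _
    rw [nB_self, nB_self] at h3
    have h4 : nB m f l.sum ^ 2 ≤ ((l.length : ℝ) * c) ^ 2 := by
      refine h3.trans ((mul_le_mul h1 h2 (nA_nonneg _ _) hc).trans (le_of_eq (by ring)))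
    have h5 := (abs_le_of_sq_le_sq' h4 (by positivity)).2
    rw [List.sum_cons, ← nB_self, List.length_cons]
    simp only [map_add, LinearMap.add_apply, nB_self, nB_comm m l.sum f]
    push_cast
    nlinarith

/-- Multiplication by a symbol of size one is bounded. -/
lemma bb_smul_le (n : ℕ) (K : ℕ → ℝ) : ∃ C : ℝ, 0 < C ∧ ∀ (θ : ℝ) (σ a : E3 → ℝ) (G : E3 → SV)
    (x : E3), 0 ≤ θ → θ ≤ 1 → Sm a → Sm G → 0 ≤ σ x →
    (∀ w : List (Fin 3), σ x ^ w.length * |dXw w a x| ≤ K w.length) →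
    bb n θ σ (fun y => a y • G y) (fun y => a y • G y) x ≤ C * bb n θ σ G G x := by
  set M := ∑ j ∈ range (n + 1), K j ^ 2 with hM
  have hM0 : 0 ≤ M := sum_nonneg fun _ _ => sq_nonneg _
  refine ⟨lev n 1 1 (fun u _ => (2 ^ u.length : ℝ) ^ 2 * M) + 1, ?_, ?_⟩
  · have := lev_nonneg (n := n) (σ := 1) zero_le_one
      (φ := fun u _ => (2 ^ u.length : ℝ) ^ 2 * M) fun u m => by positivity
    linarith
  intro θ σ a G x hθ hθ1 ha hG hσ hK
  have hb := bb_nonneg (n := n) (σ := σ) (G := G) hθ x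
  rw [add_mul, one_mul]
  refine le_trans ?_ (le_add_of_nonneg_right hb)
  rw [bb, lev, lev, sum_mul]
  refine sum_le_sum fun j hj => ?_
  rw [sum_mul]
  refine sum_le_sum fun m hm => ?_
  rw [one_pow, one_pow, one_mul, one_mul, mul_sum, sum_mul]
  refine sum_le_sum fun u hu => ?_
  have hj' := mem_range.1 hj
  have hm' := mem_range.1 hm
  have hul := mem_words.1 hu
  rw [← nA_eq_ip_RR, dXw_smul ha hG]
  set c := √(θ ^ (j + m)) * σ x ^ j with hc
  have hc2 : c ^ 2 = θ ^ (j + m) * σ x ^ (2 * j) := by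
    rw [hc, mul_pow, Real.sq_sqrt (by positivity), ← pow_mul, mul_comm j 2]
  rw [← hc2, ← nA_smul, List.smul_sum, List.map_map]
  refine (nA_list_sum_le m (c := M * bb n θ σ G G x) (by positivity) _ ?_).trans (le_of_eq ?_)
  · intro f hf
    obtain ⟨p, hp, rfl⟩ := List.mem_map.1 hf
    have hl := length_of_mem_splits hp
    simp only [Function.comp]
    rw [nA_smul, nA_smul, hc2]
    have h1 := term_le_bb (n := n) (σ := σ) (G := G) hθ p.2 m (by omega) x
    have h2 : (σ x ^ p.1.length * |dXw p.1 a x|) ^ 2 ≤ M :=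
      (pow_le_pow_left₀ (by positivity) (hK p.1) 2).trans
        (single_le_sum (f := fun j => K j ^ 2) (fun _ _ => sq_nonneg _) (mem_range.2 (by omega)))
    have h3 : θ ^ (j + m) ≤ θ ^ (p.2.length + m) := pow_le_pow_of_le_one hθ hθ1 (by omega)
    have h4 := nA_nonneg m (dXw p.2 G x)
    have e : j = p.1.length + p.2.length := by omega
    calc θ ^ (j + m) * σ x ^ (2 * j) * (dXw p.1 a x ^ 2 * nA m (dXw p.2 G x))
        = (σ x ^ p.1.length * |dXw p.1 a x|) ^ 2 *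
          (θ ^ (j + m) * σ x ^ (2 * p.2.length) * nA m (dXw p.2 G x)) := by
          rw [mul_pow, sq_abs, e]; ring
      _ ≤ M * (θ ^ (p.2.length + m) * σ x ^ (2 * p.2.length) * nA m (dXw p.2 G x)) := by gcongr
      _ ≤ _ := by gcongr
  · rw [List.length_map, length_splits]
    push_cast
    ring

end Pool.Agent.MP_187b32_an.KK
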