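import Pool.Agent.MP_187b32_an.KK.Comp

/-! The finite rank damping: proof of `KStmt`. -/

set_option autoImplicit false

open MeasureTheory Pool.Agent.Boltz Finset Filter Topology

noncomputable section

namespace Pool.Agent.MP_187b32_an.KK

variable {B : BgD} {n : ℕ} {θ : ℝ}

lemma cont_dens (hB : B.Ok) (a s : ℝ) {G H : E3 → SV} (hG : Sm G) (hH : Sm H) :
    Continuous fun x => B.om a s x * bb n θ (B.sig s) G H x :=
  ((hB.sm_om a).sm.cont_slice s).mul (continuous_bb (hB.sm_sig.sm.cont_slice s) hG hH)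

lemma E_nonneg (hθ : 0 ≤ θ) (a s : ℝ) (G : E3 → SV) : 0 ≤ B.E n θ a s G G :=
  tint_nonneg fun x => mul_nonneg (om_pos B a s x).le (bb_nonneg hθ x)

lemma E_zero_sq_le (hB : B.Ok) (hθ : 0 ≤ θ) (s : ℝ) {G H : E3 → SV} (hG : Sm G) (hH : Sm H) :
    B.E n θ 0 s G H ^ 2 ≤ B.E n θ (-1 / 4) s G G * B.E n θ (1 / 4) s H H := by
  have h0 : ∀ a (G : E3 → SV) x, 0 ≤ B.om a s x * bb n θ (B.sig s) G G x := fun a G x =>
    mul_nonneg (om_pos B a s x).le (bb_nonneg hθ x)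
  have h := abs_tint_le_sqrt (φ := fun x => B.om 0 s x * bb n θ (B.sig s) G H x)
    (cont_dens hB (-1 / 4) s hG hG) (cont_dens hB (1 / 4) s hH hH) (h0 _ _) (h0 _ _) fun x => by
      rw [← Real.sqrt_mul (h0 _ _ _)]
      refine Real.abs_le_sqrt ?_
      rw [mul_pow, om_sq, mul_mul_mul_comm]
      exact mul_le_mul_of_nonneg_left (bb_sq_le hθ x)
        (mul_pos (om_pos B _ s x) (om_pos B _ s x)).le
  rw [← Real.sqrt_mul (tint_nonneg (h0 _ _))] at h
  exact (Real.sq_le (mul_nonneg (E_nonneg hθ _ _ _) (E_nonneg hθ _ _ _))).2 (abs_le.1 h)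

/-- The cut-off rescaled hydrodynamic part has a bounded whole space energy. -/
lemma WE_cut_le (hB : B.Ok) (hθ : 0 ≤ θ) {C R s a : ℝ} {χ : E3 → ℝ} {G : E3 → SV} (hC : 0 ≤ C)
    (hχ : Sm χ) (hs : Supp R χ) (hR : 8 * R < Real.exp s) (hG : Sm G) (pG : Per G)
    (hb : ∀ (H : E3 → SV) y, Sm H → bb n θ (sh B.nu) (fun y => χ y • H y) (fun y => χ y • H y) y
      ≤ C * bb n θ (sh B.nu) H H y) :
    WE n θ B.nu a (fun y => χ y • PP (G (Real.exp (-s) • y)))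
      (fun y => χ y • PP (G (Real.exp (-s) • y))) ≤ C * B.E n θ a s G G := by
  have hW := (hG.clm PP).scale (Real.exp (-s))
  have hZ := hχ.smul hW
  have hZs : Supp R fun y => χ y • PP (G (Real.exp (-s) • y)) := fun y hy => by
    simp only [hs y hy, zero_smul]
  rw [WE, ← tint_resc (B := B) (continuous_bb (continuous_sh _) hZ hZ) (supp_bb hZs) hR, BgD.E, En,
    ← tint_const_mul]
  refine (le_abs_self _).trans (abs_tint_le_of_abs_le
    (continuous_const.mul (cont_dens hB a s hG hG)) fun x => ?_)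
  have ho := (om_pos B a s x).le
  rw [abs_of_nonneg (mul_nonneg ho (bb_nonneg hθ _)), mul_left_comm]
  refine mul_le_mul_of_nonneg_left ?_ ho
  by_cases h4 : ‖red x‖ ≤ 1 / 4
  · refine (hb _ _ hW).trans (mul_le_mul_of_nonneg_left ?_ hC)
    rw [← bb_resc (hG.clm PP) (hG.clm PP) h4, ← (per_bb (per_sig B s) pG pG).red x]
    exact bb_PP_le hθ hG _
  · rw [supp_bb hZs _ (far_of hR (by linarith))]
    exact mul_nonneg hC (bb_nonneg hθ _)

lemma near_far (hB : B.Ok) (hθ : 0 ≤ θ) {R s a S : ℝ} {χ : E3 → ℝ} {G : E3 → SV} (hR : 1 ≤ R)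
    (hχ : Sm χ) (hs : Supp (2 * (4 * R)) χ) (h0 : ∀ y, 0 ≤ χ y) (h1 : ∀ y, ‖y‖ ≤ 4 * R → χ y = 1)
    (hRs : 8 * (2 * (4 * R)) < Real.exp s) (hG : Sm G) (pG : Per G) (hS0 : 0 ≤ S)
    (hS : ∀ y, ‖y‖ ≤ 4 * R →
      ip (PP (G (Real.exp (-s) • y))) (PP (G (Real.exp (-s) • y))) ≤ S) :
    tint (fun x => B.mu s x * B.om a s x * ip (PP (G x)) (PP (G x)))
      ≤ R⁻¹ * B.E n θ a s G G + S * ∫ y, wh a y * χ y := by
  have hr : 1 ≤ B.r := by linarith [hB.r_gt]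
  have hc : Continuous fun x => B.om a s x * χ (Real.exp s • red x) :=
    ((hB.sm_om a).sm.cont_slice s).mul
      ((hχ.scale _).per (supp_scale hs hRs) (by norm_num)).cont
  have hd := cont_dens (n := n) (θ := θ) hB a s hG hG
  rw [← tint_resc (B := B) hχ.cont hs hRs, BgD.E, En, ← tint_const_mul, ← tint_const_mul,
    ← tint_add (hd.const_mul _) (hc.const_mul _)]
  refine (le_abs_self _).trans (abs_tint_le_of_abs_le
    ((hd.const_mul _).add (hc.const_mul _)) fun x => ?_)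
  have ho := (om_pos B a s x).le
  have hm := mu_nonneg B s x
  have hi := ip_self_nonneg (PP (G x))
  have hb := bb_nonneg (n := n) (σ := B.sig s) (G := G) hθ x
  rw [abs_of_nonneg (by positivity)]
  by_cases hx : ‖Real.exp s • red x‖ ≤ 4 * R
  · have h2 := hS _ hx
    rw [exp_neg_smul, pG.red] at h2
    rw [h1 _ hx, mul_one]
    refine le_add_of_nonneg_of_le (by positivity) ?_
    calc _ ≤ 1 * B.om a s x * S := by gcongr; exact mu_le_one B hr s x
      _ = _ := by ring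
  · refine le_add_of_le_of_nonneg ?_ (mul_nonneg hS0 (mul_nonneg ho (h0 _)))
    rw [mul_assoc]
    exact mul_le_mul (mu_far B hr s x hR (not_le.1 hx).le) (mul_le_mul_of_nonneg_left
      ((ip_PP_PP_le _).trans (ip_le_bb hθ x)) ho) (by positivity) (by positivity)

lemma final_arith {C1 C2 R ε I E Q T : ℝ} (h1 : C1 ≤ C2) (hC : 0 < C2) (hε : 0 < ε) (hR : 1 ≤ R)
    (hR2 : 2 * C2 / ε ≤ R) (hI : 0 ≤ I) (hE : 0 ≤ E) (hQ : 0 ≤ Q) (hT : 0 ≤ T)
    (h : T ≤ R⁻¹ * E + (ε / (2 * C2 * (I + 1)) * E + 4 * Q) * I) :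
    C1 * T ≤ ε * E + 4 * C2 * (I + 1) * Q := by
  refine (mul_le_mul_of_nonneg_right h1 hT).trans ((mul_le_mul_of_nonneg_left h hC.le).trans ?_)
  have h3 : C2 * R⁻¹ ≤ ε / 2 := by
    rw [mul_inv_le_iff₀ (by linarith)]
    have := (div_le_iff₀ hε).1 hR2
    linarith
  have h4 : C2 * ((ε / (2 * C2 * (I + 1)) * E + 4 * Q) * (I + 1))
      = ε / 2 * E + 4 * C2 * (I + 1) * Q := by field_simp
  have h5 : C2 * ((ε / (2 * C2 * (I + 1)) * E + 4 * Q) * I)
      ≤ C2 * ((ε / (2 * C2 * (I + 1)) * E + 4 * Q) * (I + 1)) := by gcongr; linarith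
  have h6 := mul_le_mul_of_nonneg_right h3 hE
  nlinarith

theorem kStmt : KStmt := by
  intro B hB n θ C1 ε hn hθ hθ1 hε
  obtain ⟨K, hK⟩ := exists_cut
  obtain ⟨Cχ, hCχ, hbb⟩ := bb_smul_le n K
  set C2 := max C1 1 with hC2
  have hC20 : 0 < C2 := lt_max_of_lt_right one_pos
  set R := max 1 (2 * C2 / ε) with hR
  have hR1 : 1 ≤ R := le_max_left _ _
  obtain ⟨χ₁, h1s, h1z, h10, h11, -⟩ := hK (4 * R) (by linarith)
  set I := ∫ y, wh (1 / 4) y * χ₁ y with hI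
  have hI0 : 0 ≤ I := integral_nonneg fun y => mul_nonneg (wh_pos _ y).le (h10 y)
  obtain ⟨m, φ, hφ⟩ := point_le n B.nu (1 / 4) (4 * R) hn hθ hθ1
    (ε := ε / (2 * C2 * (I + 1) * Cχ)) (by positivity)
  choose ρ hρ1 hρ using fun i => exists_supp (φ i).2.2.1
  set ρ0 := 8 * R + ∑ i, ρ i with hρ0
  have hsum : 0 ≤ ∑ i, ρ i := sum_nonneg fun i _ => by linarith [hρ1 i]
  have hφs : ∀ i, Supp ρ0 (φ i).1 := fun i => (hρ i).mono (by
    have := single_le_sum (f := ρ) (fun i _ => by linarith [hρ1 i]) (mem_univ i)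
    linarith)
  obtain ⟨χ, hχ, hχs, -, hχ1, hχK⟩ := hK (ρ0 + 1) (by linarith)
  have hWn : ∀ a i, 0 ≤ WE n θ B.nu a (φ i) (φ i) := fun a i => WE_nonneg hθ.le _
  set C := 1 + ∑ i, (WE n θ B.nu (1 / 4) (φ i) (φ i) + WE n θ B.nu (-1 / 4) (φ i) (φ i)) with hC
  have hCi : ∀ i, WE n θ B.nu (1 / 4) (φ i) (φ i) + WE n θ B.nu (-1 / 4) (φ i) (φ i) ≤ C := fun i =>
    le_add_of_nonneg_of_le zero_le_one (single_le_sum (f := fun i =>
      WE n θ B.nu (1 / 4) (φ i) (φ i) + WE n θ B.nu (-1 / 4) (φ i) (φ i))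
      (fun i _ => add_nonneg (hWn _ i) (hWn _ i)) (mem_univ i))
  refine ⟨m, fun i => φ i, 4 * C2 * (I + 1), C, 8 * (2 * (ρ0 + 1)), by positivity,
    add_pos_of_pos_of_nonneg one_pos (sum_nonneg fun i _ => add_nonneg (hWn _ i) (hWn _ i)),
    fun i => (φ i).2, fun s hs => ?_⟩
  have hs2 : 8 * (2 * (ρ0 + 1)) < Real.exp s := by linarith [Real.add_one_le_exp s]
  have hs1 : 8 * ρ0 < Real.exp s := by linarith
  refine ⟨fun i => ?_, fun G hG pG => ⟨fun i => ?_, ?_⟩⟩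
  · rw [E_per_per (φ i).2.1 (hφs i) hs1]
    linarith [hCi i, hWn (-1 / 4) i]
  · refine (E_zero_sq_le hB hθ.le s (sm_per (φ i).2.1 (hφs i) hs1) hG).trans ?_
    rw [E_per_per (φ i).2.1 (hφs i) hs1]
    exact mul_le_mul_of_nonneg_right (by linarith [hCi i, hWn (1 / 4) i]) (E_nonneg hθ.le _ _ _)
  have hW := (hG.clm PP).scale (Real.exp (-s))
  let Z : DD := ⟨fun y => χ y • PP (G (Real.exp (-s) • y)), hχ.smul hW,
    Supp.hasCompactSupport (ρ := 2 * (ρ0 + 1)) fun y hy => by simp only [hχs y hy, zero_smul],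
    fun y => by rw [map_smul, PP_PP]⟩
  have hE : ∀ i, WE n θ B.nu (1 / 4) (φ i) Z = B.E n θ (1 / 4) s (B.per (φ i) s) G := fun i => by
    rw [E_per (φ i).2.1 (hφs i) hs1 hG pG, WE_congr (hφs i)
      (H := fun y => PP (G (Real.exp (-s) • y))) fun y hy => ?_]
    · simp only [WE, bb_PP_right (φ i).2.1 (hG.scale _) (φ i).2.2.2]
    · have : ∀ᶠ z in 𝓝 y, ‖z‖ < ρ0 + 1 :=
        (isOpen_lt continuous_norm continuous_const).eventually_mem (by simpa using by linarith)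
      filter_upwards [this] with z hz
      simp only [Z, hχ1 z hz.le, one_smul]
  have hZ : WE n θ B.nu (1 / 4) Z Z ≤ Cχ * B.E n θ (1 / 4) s G G :=
    WE_cut_le hB hθ.le hCχ.le hχ hχs hs2 hG pG fun H y hH =>
      hbb θ _ χ H y hθ.le hθ1 hχ hH (zero_le_one.trans (one_le_sh _ y)) fun w =>
        (mul_le_mul_of_nonneg_right (pow_le_pow_left₀ (zero_le_one.trans (one_le_sh _ y))
          (sh_le hB.nu_pos.le hB.nu_le y) _) (abs_nonneg _)).trans (hχK w y)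
  have hE0 := E_nonneg (B := B) (n := n) hθ.le (1 / 4) s G
  have hQ0 : 0 ≤ ∑ i, B.E n θ (1 / 4) s (B.per (φ i) s) G ^ 2 := sum_nonneg fun _ _ => sq_nonneg _
  have hε1 : 0 ≤ ε / (2 * C2 * (I + 1)) := by positivity
  have hε2 : 0 ≤ ε / (2 * C2 * (I + 1) * Cχ) := by positivity
  have hε3 : ε / (2 * C2 * (I + 1) * Cχ) * Cχ = ε / (2 * C2 * (I + 1)) := by field_simp
  refine final_arith (le_max_left _ _) hC20 hε hR1 (le_max_right _ _) hI0 hE0 hQ0
    (tint_nonneg fun x => mul_nonneg (mul_nonneg (mu_nonneg B s x) (om_pos B _ s x).le)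
      (ip_self_nonneg _)) (near_far hB hθ.le hR1 h1s h1z h10 h11 (by linarith) hG pG
      (add_nonneg (mul_nonneg hε1 hE0) (mul_nonneg (by norm_num) hQ0)) fun y hy => ?_)
  have h2 := hφ Z y hy
  have h3 : Z.1 y = PP (G (Real.exp (-s) • y)) := by
    simp only [Z, hχ1 y (by linarith), one_smul]
  rw [h3, sum_congr rfl fun i _ => congrArg (· ^ 2) (hE i)] at h2
  refine h2.trans (add_le_add ((mul_le_mul_of_nonneg_left hZ hε2).trans (le_of_eq ?_)) le_rfl)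
  rw [← mul_assoc, hε3]

end Pool.Agent.MP_187b32_an.KK
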