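import Pool.Agent.MP_187b32_an.KK.Comp
import Pool.Agent.MP_187b32_an.Lin.Form

/-! The local `L^2` norm is a small multiple of the energy up to finitely many functionals. -/

set_option autoImplicit false

open MeasureTheory Pool.Agent.Boltz Finset

noncomputable section

namespace Pool.Agent.MP_187b32_an.KK

theorem rellich (n : ℕ) (hn : 4 ≤ n) {θ : ℝ} (hθ : 0 < θ) (hθ1 : θ ≤ 1) (a ν ρ : ℝ) {ε : ℝ}
    (hε : 0 < ε) : ∃ (m : ℕ) (l : Fin m → Lin.DD →ₗ[ℝ] ℝ) (K : ℝ),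
      (∀ k φ, l k φ ^ 2 ≤ K * Lin.BF n θ a ν φ φ) ∧
      ∀ φ : Lin.DD, Lin.NY ρ φ ≤ ε * Lin.BF n θ a ν φ φ + ∑ k, l k φ ^ 2 := by
  have hc : Continuous fun y : E3 => expNegInvGlue (ρ ^ 2 - ‖y‖ ^ 2) :=
    (expNegInvGlue.contDiff (n := 0)).continuous.comp (by fun_prop)
  have hs : Supp |ρ| fun y : E3 => expNegInvGlue (ρ ^ 2 - ‖y‖ ^ 2) := fun y hy =>
    expNegInvGlue.zero_of_nonpos (by nlinarith [abs_nonneg ρ, sq_abs ρ])
  obtain ⟨I, hI, hI'⟩ : ∃ I : ℝ, 0 < I ∧ ∫ y : E3, expNegInvGlue (ρ ^ 2 - ‖y‖ ^ 2) ≤ I :=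
    ⟨max 1 _, lt_max_of_lt_left one_pos, le_max_right _ _⟩
  obtain ⟨m, ψ, hψ⟩ := point_le n ν a |ρ| hn hθ hθ1 (div_pos hε hI)
  let ψ' : Fin m → Lin.DD := fun k => ⟨ψ k, Lin.inD_iff.1 (ψ k).2⟩
  have hB := Lin.BF_nonneg (n := n) hθ.le a ν
  have hl : ∀ k φ, ((2 * √I) • Lin.BF n θ a ν (ψ' k)) φ ^ 2 = 4 * I * Lin.BF n θ a ν (ψ' k) φ ^ 2 :=
    fun k φ => by
      rw [LinearMap.smul_apply, smul_eq_mul, mul_pow, mul_pow, Real.sq_sqrt hI.le]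
      norm_num
  refine ⟨m, fun k => (2 * √I) • Lin.BF n θ a ν (ψ' k), 4 * I * ∑ k, Lin.BF n θ a ν (ψ' k) (ψ' k),
    fun k φ => ?_, fun φ => ?_⟩
  · rw [hl, mul_assoc (4 * I)]
    refine mul_le_mul_of_nonneg_left ((LinearMap.BilinForm.apply_sq_le_of_symm _ hB
      ⟨fun x y => Lin.BF_symm a ν x y⟩ _ _).trans (mul_le_mul_of_nonneg_right ?_ (hB φ)))
      (by linarith)
    exact single_le_sum (f := fun k => Lin.BF n θ a ν (ψ' k) (ψ' k)) (fun k _ => hB _) (mem_univ k)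
  simp only [hl, ← mul_sum]
  have hp : ∀ y, ‖y‖ ≤ |ρ| → ip (φ.1 y) (φ.1 y) ≤
      ε / I * Lin.BF n θ a ν φ φ + 4 * ∑ k, Lin.BF n θ a ν (ψ' k) φ ^ 2 :=
    hψ ⟨φ, Lin.inD_iff.2 φ.2⟩
  have h1 := hB φ
  have h2 : 0 ≤ ∑ k, Lin.BF n θ a ν (ψ' k) φ ^ 2 := sum_nonneg fun _ _ => sq_nonneg _
  generalize Lin.BF n θ a ν φ φ = W at *
  generalize ∑ k, Lin.BF n θ a ν (ψ' k) φ ^ 2 = Q at *
  have h3 : 0 ≤ ε / I * W + 4 * Q := by positivity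
  calc Lin.NY ρ φ ≤ ∫ y : E3, expNegInvGlue (ρ ^ 2 - ‖y‖ ^ 2) * (ε / I * W + 4 * Q) := by
        refine integral_mono_of_nonneg (Filter.Eventually.of_forall fun y =>
          mul_nonneg (expNegInvGlue.nonneg _) (ip_self_nonneg _))
          ((hs.integrable hc).mul_const _) (Filter.Eventually.of_forall fun y => ?_)
        by_cases hy : ‖y‖ ≤ |ρ|
        · exact mul_le_mul_of_nonneg_left (hp y hy) (expNegInvGlue.nonneg _)
        · simp only [hs y (not_le.1 hy), zero_mul, le_refl]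
    _ ≤ I * (ε / I * W + 4 * Q) := by
        rw [integral_mul_const]
        exact mul_le_mul_of_nonneg_right hI' h3
    _ = _ := by field_simp

end Pool.Agent.MP_187b32_an.KK
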