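import Pool.Agent.MP_187b32_an.KK.BB
import Pool.Agent.MP_187b32_an.Spec.Bg
import Pool.Agent.MP_187b32_an.Lin.WInt

/-! Rescaling between the torus and the whole space. -/

set_option autoImplicit false

open MeasureTheory Pool.Agent.Boltz Finset Filter Topology

noncomputable section

namespace Pool.Agent.MP_187b32_an.KK

/-- The rescaled length scale. -/
def sh (ν : ℝ) (y : E3) : ℝ := 1 + √(1 + ν ^ 2 * ‖y‖ ^ 2)

/-- The rescaled weight. -/
def wh (a : ℝ) (y : E3) : ℝ := √(1 + ‖y‖ ^ 2) ^ (-3 - 2 * a)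

/-- The energy form on the whole space. -/
def WE (n : ℕ) (θ ν a : ℝ) (φ ψ : E3 → SV) : ℝ := ∫ y, wh a y * bb n θ (sh ν) φ ψ y

lemma one_le_sh (ν : ℝ) (y : E3) : 1 ≤ sh ν y := le_add_of_nonneg_right (Real.sqrt_nonneg _)

lemma continuous_sh (ν : ℝ) : Continuous (sh ν) := by unfold sh; fun_prop

lemma sh_le {ν : ℝ} (h0 : 0 ≤ ν) (h1 : ν ≤ 1) (y : E3) : sh ν y ≤ 2 + ‖y‖ := by
  have h2 : √(1 + ν ^ 2 * ‖y‖ ^ 2) ≤ 1 + ‖y‖ := by
    refine Real.sqrt_le_iff.2 ⟨by positivity, ?_⟩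
    have h3 : ν ^ 2 ≤ 1 := by nlinarith
    nlinarith [norm_nonneg y, mul_le_mul_of_nonneg_right h3 (sq_nonneg ‖y‖)]
  unfold sh
  linarith

lemma jb_pos (y : E3) : 0 < √(1 + ‖y‖ ^ 2) := Real.sqrt_pos.2 (by positivity)

lemma wh_pos (a : ℝ) (y : E3) : 0 < wh a y := Real.rpow_pos_of_pos (jb_pos y) _

lemma continuous_wh (a : ℝ) : Continuous (wh a) :=
  Continuous.rpow_const (by fun_prop) fun y => Or.inl (jb_pos y).ne'

lemma box_of_norm {a : ℝ} {x : E3} (h : ‖x‖ ≤ a) : box a x := fun i =>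
  le_trans (by simpa using PiLp.norm_apply_le x i) h

lemma box_red (x : E3) : box (1 / 2) (red x) := fun i => abs_sub_round (x i)

lemma exp_mul_sqrt (s b : ℝ) :
    Real.exp s * √(Real.exp (-2 * s) + b) = √(1 + Real.exp s ^ 2 * b) := by
  have e : Real.exp s ^ 2 * Real.exp (-2 * s) = 1 := by
    rw [← Real.exp_nat_mul, ← Real.exp_add]; simp
  rw [← e, ← mul_add, Real.sqrt_mul (sq_nonneg _), Real.sqrt_sq (Real.exp_pos s).le]

lemma norm_exp_smul (s : ℝ) (x : E3) : ‖Real.exp s • x‖ = Real.exp s * ‖x‖ := by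
  rw [norm_smul, Real.norm_eq_abs, abs_of_pos (Real.exp_pos s)]

lemma exp_neg_smul (s : ℝ) (x : E3) : Real.exp (-s) • Real.exp s • x = x := by
  rw [smul_smul, ← Real.exp_add]; simp

lemma exp_smul_neg (s : ℝ) (x : E3) : Real.exp s • Real.exp (-s) • x = x := by
  rw [smul_smul, ← Real.exp_add]; simp

variable (B : BgD)

lemma rho2_ge (x : E3) : ‖red x‖ ^ 2 / 12 ≤ B.cut.rho2 x := by
  rw [← B.cut.per_rho2.red x]
  exact B.cut.rho2_ge _ (box_red x)

lemma rho2_nonneg (x : E3) : 0 ≤ B.cut.rho2 x := le_trans (by positivity) (rho2_ge B x)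

lemma Lam_pos (s : ℝ) (x : E3) : 0 < B.Lam s x :=
  Real.sqrt_pos.2 (add_pos_of_pos_of_nonneg (Real.exp_pos _) (rho2_nonneg B x))

lemma om_pos (a s : ℝ) (x : E3) : 0 < B.om a s x :=
  mul_pos (Real.exp_pos _) (Real.rpow_pos_of_pos (Lam_pos B s x) _)

lemma per_om (a s : ℝ) : Per (B.om a s) := fun i x => by
  simp only [BgD.om, BgD.Lam, B.cut.per_rho2 i x]

lemma per_sig (s : ℝ) : Per (B.sig s) := fun i x => by simp only [BgD.sig, B.cut.per_rho2 i x]

lemma om_sq (s : ℝ) (x : E3) : B.om 0 s x ^ 2 = B.om (-1 / 4) s x * B.om (1 / 4) s x := by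
  have h := Lam_pos B s x
  simp only [BgD.om]
  rw [mul_mul_mul_comm, ← Real.exp_add, ← Real.rpow_add h, mul_pow, sq, sq, ← Real.exp_add,
    ← Real.rpow_add h]
  congr 2 <;> ring

lemma sig_scale (s : ℝ) {x : E3} (hx : box (1 / 4) x) :
    Real.exp s * B.sig s x = sh B.nu (Real.exp s • x) := by
  rw [BgD.sig, sh, mul_add, exp_mul_sqrt, ← Real.exp_add, B.cut.rho2_eq x hx, norm_exp_smul]
  congr 2
  · simp
  · ring

lemma om_scale (a s : ℝ) {x : E3} (hx : box (1 / 4) x) :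
    B.om a s x = Real.exp s ^ 3 * wh a (Real.exp s • x) := by
  have h : √(1 + ‖Real.exp s • x‖ ^ 2) = Real.exp s * B.Lam s x := by
    rw [BgD.Lam, exp_mul_sqrt, B.cut.rho2_eq x hx, norm_exp_smul, mul_pow]
  rw [wh, h, Real.mul_rpow (Real.exp_pos s).le (Lam_pos B s x).le, BgD.om, ← mul_assoc,
    ← Real.exp_mul, ← Real.exp_nat_mul, ← Real.exp_add]
  congr 2
  push_cast
  ring

lemma mu_eq (s : ℝ) (x : E3) :
    B.mu s x = √(1 + Real.exp s ^ 2 * B.cut.rho2 x) ^ (-B.r) := by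
  rw [← exp_mul_sqrt, Real.mul_rpow (Real.exp_pos s).le (Real.sqrt_nonneg _), BgD.mu,
    ← Real.exp_mul, mul_comm s]
  rfl

lemma mu_nonneg (s : ℝ) (x : E3) : 0 ≤ B.mu s x := by
  rw [mu_eq]; positivity

lemma mu_le (hr : 1 ≤ B.r) (s : ℝ) (x : E3) {R : ℝ} (hR : 1 ≤ R)
    (h : R ≤ √(1 + Real.exp s ^ 2 * B.cut.rho2 x)) : B.mu s x ≤ R⁻¹ := by
  rw [mu_eq]
  calc _ ≤ R ^ (-B.r) := Real.rpow_le_rpow_of_nonpos (by linarith) h (by linarith)
    _ ≤ R ^ (-1 : ℝ) := Real.rpow_le_rpow_of_exponent_le hR (by linarith)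
    _ = R⁻¹ := Real.rpow_neg_one R

lemma mu_le_one (hr : 1 ≤ B.r) (s : ℝ) (x : E3) : B.mu s x ≤ 1 := by
  have := rho2_nonneg B x
  simpa using mu_le B hr s x le_rfl (Real.le_sqrt_of_sq_le (by
    rw [one_pow]; exact le_add_of_nonneg_right (by positivity)))

lemma mu_far (hr : 1 ≤ B.r) (s : ℝ) (x : E3) {R : ℝ} (hR : 1 ≤ R)
    (h : 4 * R ≤ ‖Real.exp s • red x‖) : B.mu s x ≤ R⁻¹ := by
  refine mu_le B hr s x hR (Real.le_sqrt_of_sq_le ?_)
  have h1 := mul_le_mul_of_nonneg_left (rho2_ge B x) (sq_nonneg (Real.exp s))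
  have h2 := pow_le_pow_left₀ (by linarith) h 2
  rw [norm_exp_smul] at h2
  nlinarith

variable {B}

lemma far_of {ρ s : ℝ} (hs : 8 * ρ < Real.exp s) {x : E3} (hx : 1 / 8 ≤ ‖x‖) :
    ρ < ‖Real.exp s • x‖ := by
  rw [norm_exp_smul]
  nlinarith [Real.exp_pos s]

lemma per_eq_per {ρ s : ℝ} {φ : E3 → SV} (hφ : Supp ρ φ) (hs : 8 * ρ < Real.exp s) :
    B.per φ s = Boltz.per fun x => φ (Real.exp s • x) := by
  funext x
  have e : B.per φ s x = B.per φ s (red x) := by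
    simp only [BgD.per, B.cut.per_chi.red, B.cut.per_pi.red]
  rw [e, Boltz.per, BgD.per]
  set z := red x
  by_cases h8 : box (1 / 8) z
  · rw [B.cut.chi_one z h8, one_smul, B.cut.pi_eq z fun i => (h8 i).trans (by norm_num)]
  have h0 : φ (Real.exp s • z) = 0 :=
    hφ _ (far_of hs (not_lt.1 fun h => h8 (box_of_norm h.le)))
  by_cases h5 : box (1 / 5) z
  · rw [B.cut.pi_eq z fun i => (h5 i).trans (by norm_num), h0, smul_zero]
  · rw [B.cut.chi_zero z (box_red x) h5, zero_smul, h0]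

lemma supp_scale {α : Type*} [Zero α] {ρ s : ℝ} {φ : E3 → α} (hφ : Supp ρ φ)
    (hs : 8 * ρ < Real.exp s) : Supp (1 / 8) fun x => φ (Real.exp s • x) :=
  fun _ hx => hφ _ (far_of hs hx.le)

lemma sm_per {ρ s : ℝ} {φ : E3 → SV} (h : Sm φ) (hφ : Supp ρ φ) (hs : 8 * ρ < Real.exp s) :
    Sm (B.per φ s) := by
  rw [per_eq_per hφ hs]
  exact (h.scale _).per (supp_scale hφ hs) (by norm_num)

lemma per_Bper (φ : E3 → SV) (s : ℝ) : Per (B.per φ s) := fun i x => by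
  simp only [BgD.per, B.cut.per_chi i x, B.cut.per_pi i x]

lemma per_ev {ρ s : ℝ} {φ : E3 → SV} (hφ : Supp ρ φ) (hs : 8 * ρ < Real.exp s) {x : E3}
    (hx : ‖x‖ < 1 / 2) : B.per φ s =ᶠ[𝓝 x] fun x => φ (Real.exp s • x) := by
  rw [per_eq_per hφ hs]
  exact ((isOpen_lt continuous_norm continuous_const).eventually_mem hx).mono fun y hy =>
    per_eq _ hy

variable {n : ℕ} {θ : ℝ}

/-- The density of two functions near the origin in the rescaled variable. -/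
lemma bb_resc {s : ℝ} {G H : E3 → SV} (hG : Sm G) (hH : Sm H) {x : E3} (hx : ‖x‖ ≤ 1 / 4) :
    bb n θ (B.sig s) G H x = bb n θ (sh B.nu) (fun y => G (Real.exp (-s) • y))
      (fun y => H (Real.exp (-s) • y)) (Real.exp s • x) := by
  rw [← bb_scale (hG.scale _) (hH.scale _) x (sig_scale B s (box_of_norm hx))]
  simp only [exp_neg_smul]

lemma bb_per {ρ s : ℝ} {φ G : E3 → SV} (h : Sm φ) (hφ : Supp ρ φ) (hs : 8 * ρ < Real.exp s)
    (hG : Sm G) (pG : Per G) (x : E3) : bb n θ (B.sig s) (B.per φ s) G x =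
      bb n θ (sh B.nu) φ (fun y => G (Real.exp (-s) • y)) (Real.exp s • red x) := by
  rw [← (per_bb (per_sig B s) (per_Bper φ s) pG).red x]
  set z := red x with hz
  by_cases h4 : ‖z‖ ≤ 1 / 4
  · rw [bb_congr (σ' := B.sig s) rfl (per_ev hφ hs (by linarith)) EventuallyEq.rfl,
      bb_resc (h.scale _) hG h4]
    simp only [exp_smul_neg]
  · rw [supp_bb hφ _ (far_of hs (by linarith))]
    have e : ∀ u, dXw u (B.per φ s) z = 0 := fun u => by
      rw [per_eq_per hφ hs, dXw_per (h.scale _) (supp_scale hφ hs) (by norm_num), hz,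
        (per_per _).red]
      exact (supp_scale hφ hs).dXw u _ (by linarith)
    simp [bb, lev, e]

lemma tint_resc {ρ s a : ℝ} {ψ : E3 → ℝ} (hc : Continuous ψ) (hψ : Supp ρ ψ)
    (hs : 8 * ρ < Real.exp s) :
    tint (fun x => B.om a s x * ψ (Real.exp s • red x)) = ∫ y, wh a y * ψ y := by
  have e : (fun x => B.om a s x * ψ (Real.exp s • red x)) = Boltz.per fun x =>
      Real.exp s ^ 3 * (wh a (Real.exp s • x) * ψ (Real.exp s • x)) := by
    funext x
    rw [Boltz.per, ← (per_om B a s).red x]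
    by_cases h4 : ‖red x‖ ≤ 1 / 4
    · rw [om_scale B a s (box_of_norm h4), mul_assoc]
    · simp [hψ _ (far_of hs (x := red x) (by linarith))]
  have hw := continuous_wh a
  rw [e, tint_per (ρ := 1 / 8) (by fun_prop) (fun x hx => by simp [supp_scale hψ hs x hx])
    (by norm_num), integral_const_mul,
    integral_scale (fun y => wh a y * ψ y) (Real.exp_pos s), ← mul_assoc,
    mul_inv_cancel₀ (by positivity), one_mul]

/-- The torus energy against a periodised function is the whole space energy. -/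
lemma E_per {ρ s a : ℝ} {φ G : E3 → SV} (h : Sm φ) (hφ : Supp ρ φ) (hs : 8 * ρ < Real.exp s)
    (hG : Sm G) (pG : Per G) :
    B.E n θ a s (B.per φ s) G = WE n θ B.nu a φ fun y => G (Real.exp (-s) • y) := by
  simp only [BgD.E, En, bb_per h hφ hs hG pG]
  exact tint_resc (continuous_bb (continuous_sh _) h (hG.scale _)) (supp_bb hφ) hs

lemma WE_congr {ρ ν a : ℝ} {φ G H : E3 → SV} (hφ : Supp ρ φ)
    (h : ∀ y, ‖y‖ ≤ ρ → G =ᶠ[𝓝 y] H) : WE n θ ν a φ G = WE n θ ν a φ H := by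
  unfold WE
  congr 1
  funext y
  by_cases hy : ‖y‖ ≤ ρ
  · rw [bb_congr rfl EventuallyEq.rfl (h y hy)]
  · rw [supp_bb hφ _ (not_le.1 hy), supp_bb hφ _ (not_le.1 hy)]

lemma per_resc_ev {ρ s : ℝ} {φ : E3 → SV} (hφ : Supp ρ φ) (hs : 8 * ρ < Real.exp s) {y : E3}
    (hy : ‖y‖ ≤ ρ) : (fun y => B.per φ s (Real.exp (-s) • y)) =ᶠ[𝓝 y] φ := by
  have h1 : ‖Real.exp (-s) • y‖ < 1 / 2 := by
    rw [norm_exp_smul, Real.exp_neg, inv_mul_lt_iff₀ (Real.exp_pos s)]
    linarith [Real.exp_pos s]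
  have h2 : Continuous fun y : E3 => Real.exp (-s) • y := by fun_prop
  filter_upwards [(h2.tendsto y).eventually (per_ev (B := B) hφ hs h1)] with z hz
  rw [hz, exp_smul_neg]

lemma E_per_per {ρ s a : ℝ} {φ : E3 → SV} (h : Sm φ) (hφ : Supp ρ φ) (hs : 8 * ρ < Real.exp s) :
    B.E n θ a s (B.per φ s) (B.per φ s) = WE n θ B.nu a φ φ := by
  rw [E_per h hφ hs (sm_per h hφ hs) (per_Bper φ s)]
  exact WE_congr hφ fun y hy => per_resc_ev hφ hs hy

end Pool.Agent.MP_187b32_an.KK
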